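import Mathlib

set_option autoImplicit false

namespace Pool.Agent.Results.MP_a3bfba_gt.RegularPolygons2

open Set

/-- A projective-metric space of straight type and dimension `m`: a nonempty metric space `X`
identified by the chart `φ` with an open convex subset (the range of `φ`) of the `m`-dimensional
real affine space, such that the metric induces the usual topology (`φ` is an open embedding), and
for distinct points `x, y, z` one has `d(x,y) + d(y,z) = d(x,z)` if and only if `y` lies on the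
open segment from `x` to `z`. -/
def IsStraightProjectiveMetric (m : ℕ) (X : Type) [MetricSpace X] : Prop :=
  Nonempty X ∧ ∃ φ : X → EuclideanSpace ℝ (Fin m),
    Topology.IsOpenEmbedding φ ∧ Convex ℝ (range φ) ∧
    ∀ x y z : X, x ≠ y → y ≠ z → x ≠ z →
      (dist x y + dist y z = dist x z ↔ φ y ∈ openSegment ℝ (φ x) (φ z))

/-- The regular polygon property: for every `n ≥ 3`, any two distinct points `A`, `B` are
adjacent vertices of a regular (totally equilateral) `n`-gon. -/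
def RegularPolygonProperty (X : Type) [MetricSpace X] : Prop :=
  ∀ n : ℕ, 3 ≤ n → ∀ A B : X, A ≠ B →
    ∃ P : ZMod n → X, Function.Injective P ∧ P 0 = A ∧ P 1 = B ∧
      ∀ i j h : ZMod n, dist (P i) (P j) = dist (P (i + h)) (P (j + h))

/-- `X` is isometric to a Euclidean space (of some dimension). -/
def IsEuclidean (X : Type) [MetricSpace X] : Prop :=
  ∃ n : ℕ, Nonempty (X ≃ᵢ EuclideanSpace ℝ (Fin n))

/-- `X` is isometric to the hyperbolic space of some dimension `n` and some constant curvature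
`-1/c^2`, written with the Beltrami-Klein model in the open unit ball. -/
def IsHyperbolic (X : Type) [MetricSpace X] : Prop :=
  ∃ (n : ℕ) (c : ℝ) (f : X → EuclideanSpace ℝ (Fin n)), 0 < c ∧
    BijOn f univ (Metric.ball 0 1) ∧
    ∀ x y : X, Real.cosh (dist x y / c) =
      (1 - inner ℝ (f x) (f y)) / (Real.sqrt (1 - ‖f x‖ ^ 2) * Real.sqrt (1 - ‖f y‖ ^ 2))

/-! ### The metric -/

/-- The strictly convex, non-Euclidean auxiliary norm. -/
noncomputable def nn {k : ℕ} (v : EuclideanSpace ℝ (Fin (k + 2))) : ℝ := ‖v‖ + |v 0|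

/-- The norm on `ℝ × ℝ^(k+2)`. -/
noncomputable def NN {k : ℕ} (a : ℝ × EuclideanSpace ℝ (Fin (k + 2))) : ℝ :=
  Real.sqrt (a.1 ^ 2 + nn a.2 ^ 2)

variable {k : ℕ}

lemma nn_nonneg (v : EuclideanSpace ℝ (Fin (k + 2))) : 0 ≤ nn v := by
  unfold nn; positivity

lemma nn_pos {v : EuclideanSpace ℝ (Fin (k + 2))} (hv : v ≠ 0) : 0 < nn v := by
  unfold nn
  have : 0 < ‖v‖ := norm_pos_iff.2 hv
  positivity

@[simp] lemma nn_zero : nn (0 : EuclideanSpace ℝ (Fin (k + 2))) = 0 := by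
  simp [nn]

lemma nn_smul (r : ℝ) (v : EuclideanSpace ℝ (Fin (k + 2))) : nn (r • v) = |r| * nn v := by
  unfold nn
  rw [norm_smul, Real.norm_eq_abs]
  simp [abs_mul]
  ring

lemma nn_add (v w : EuclideanSpace ℝ (Fin (k + 2))) : nn (v + w) ≤ nn v + nn w := by
  unfold nn
  have h1 := norm_add_le v w
  have h2 := abs_add_le (v 0) (w 0)
  have h3 : (v + w) 0 = v 0 + w 0 := rfl
  rw [h3]
  linarith

lemma nn_add_eq {v w : EuclideanSpace ℝ (Fin (k + 2))} (h : nn (v + w) = nn v + nn w) :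
    SameRay ℝ v w := by
  rw [sameRay_iff_norm_add]
  unfold nn at h
  have h1 := norm_add_le v w
  have h2 := abs_add_le (v 0) (w 0)
  have h3 : (v + w) 0 = v 0 + w 0 := rfl
  rw [h3] at h
  linarith

lemma NN_nonneg (a : ℝ × EuclideanSpace ℝ (Fin (k + 2))) : 0 ≤ NN a := Real.sqrt_nonneg _

lemma NN_sq (a : ℝ × EuclideanSpace ℝ (Fin (k + 2))) : NN a ^ 2 = a.1 ^ 2 + nn a.2 ^ 2 :=
  Real.sq_sqrt (by positivity)

lemma NN_zero : NN (0 : ℝ × EuclideanSpace ℝ (Fin (k + 2))) = 0 := by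
  simp [NN]

lemma NN_smul (r : ℝ) (a : ℝ × EuclideanSpace ℝ (Fin (k + 2))) : NN (r • a) = |r| * NN a := by
  have h1 : NN (r • a) ^ 2 = (|r| * NN a) ^ 2 := by
    rw [mul_pow, NN_sq, NN_sq]
    simp only [Prod.smul_fst, Prod.smul_snd, nn_smul, smul_eq_mul]
    rw [mul_pow, mul_pow, sq_abs]
    ring
  exact (pow_left_inj₀ (NN_nonneg _) (mul_nonneg (abs_nonneg _) (NN_nonneg _)) two_ne_zero).1 h1

lemma NN_neg (a : ℝ × EuclideanSpace ℝ (Fin (k + 2))) : NN (-a) = NN a := by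
  have := NN_smul (-1) a
  simpa using this

lemma NN_eq_zero {a : ℝ × EuclideanSpace ℝ (Fin (k + 2))} (h : NN a = 0) : a = 0 := by
  have h1 := NN_sq a
  rw [h] at h1
  have h2 : a.1 = 0 := by nlinarith [sq_nonneg a.1, sq_nonneg (nn a.2)]
  have h3 : nn a.2 = 0 := by nlinarith [sq_nonneg a.1, sq_nonneg (nn a.2)]
  have h4 : a.2 = 0 := by
    by_contra hne
    exact absurd h3 (nn_pos hne).ne'
  exact Prod.ext h2 h4

/-- Cauchy-Schwarz in the plane. -/
lemma cs (a b : ℝ × EuclideanSpace ℝ (Fin (k + 2))) :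
    a.1 * b.1 + nn a.2 * nn b.2 ≤ NN a * NN b := by
  have h1 : (a.1 * b.1 + nn a.2 * nn b.2) ^ 2 ≤ (NN a * NN b) ^ 2 := by
    rw [mul_pow, NN_sq, NN_sq]
    nlinarith [sq_nonneg (a.1 * nn b.2 - b.1 * nn a.2)]
  exact le_of_sq_le_sq h1 (mul_nonneg (NN_nonneg _) (NN_nonneg _))
where
  le_of_sq_le_sq {x y : ℝ} (h : x ^ 2 ≤ y ^ 2) (hy : 0 ≤ y) : x ≤ y := abs_le_of_sq_le_sq' h hy |>.2

lemma NN_add (a b : ℝ × EuclideanSpace ℝ (Fin (k + 2))) : NN (a + b) ≤ NN a + NN b := by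
  have h1 : NN (a + b) ^ 2 ≤ (NN a + NN b) ^ 2 := by
    have e1 := NN_sq (a + b)
    have e2 := NN_sq a
    have e3 := NN_sq b
    have h2 := cs a b
    have h3 : nn (a.2 + b.2) ^ 2 ≤ (nn a.2 + nn b.2) ^ 2 :=
      pow_le_pow_left₀ (nn_nonneg _) (nn_add _ _) 2
    simp only [Prod.fst_add, Prod.snd_add] at e1
    nlinarith
  exact (abs_le_of_sq_le_sq' h1 (add_nonneg (NN_nonneg _) (NN_nonneg _))).2

/-- Strict convexity. -/
lemma NN_add_eq {a b : ℝ × EuclideanSpace ℝ (Fin (k + 2))} (ha : a ≠ 0) (hb : b ≠ 0)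
    (h : NN (a + b) = NN a + NN b) : ∃ r : ℝ, 0 < r ∧ b = r • a := by
  have e1 := NN_sq (a + b)
  have e2 := NN_sq a
  have e3 := NN_sq b
  have h2 := cs a b
  have h3 : nn (a.2 + b.2) ^ 2 ≤ (nn a.2 + nn b.2) ^ 2 :=
    pow_le_pow_left₀ (nn_nonneg _) (nn_add _ _) 2
  simp only [Prod.fst_add, Prod.snd_add] at e1
  rw [h] at e1
  have h4 : nn (a.2 + b.2) ^ 2 = (nn a.2 + nn b.2) ^ 2 := by nlinarith
  have h5 : a.1 * b.1 + nn a.2 * nn b.2 = NN a * NN b := by nlinarith
  have h6 : nn (a.2 + b.2) = nn a.2 + nn b.2 :=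
    (pow_left_inj₀ (nn_nonneg _) (add_nonneg (nn_nonneg _) (nn_nonneg _)) two_ne_zero).1 h4
  have h7 : a.1 * nn b.2 = b.1 * nn a.2 := by
    have h8 : (a.1 * b.1 + nn a.2 * nn b.2) ^ 2 = NN a ^ 2 * NN b ^ 2 := by rw [h5, mul_pow]
    rw [e2, e3] at h8
    have h9 : (a.1 * nn b.2 - b.1 * nn a.2) ^ 2 = 0 := by nlinarith
    have := pow_eq_zero_iff (two_ne_zero) |>.1 h9
    linarith
  have hray := nn_add_eq h6
  have hpa : 0 < NN a := lt_of_le_of_ne (NN_nonneg _) (fun h0 => ha (NN_eq_zero h0.symm))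
  have hpb : 0 < NN b := lt_of_le_of_ne (NN_nonneg _) (fun h0 => hb (NN_eq_zero h0.symm))
  by_cases hv : a.2 = 0
  · have hb2 : b.2 = 0 := by
      by_contra hne
      rw [hv, nn_zero, mul_zero] at h7
      have ha1 : a.1 = 0 := by
        rcases mul_eq_zero.1 h7 with h0 | h0
        · exact h0
        · exact absurd h0 (nn_pos hne).ne'
      exact ha (Prod.ext ha1 hv)
    rw [hv, hb2, nn_zero, mul_zero, add_zero] at h5
    have ha1 : a.1 ≠ 0 := fun h0 => ha (Prod.ext h0 hv)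
    have hpos : 0 < a.1 * b.1 := by rw [h5]; positivity
    refine ⟨b.1 / a.1, ?_, ?_⟩
    · have : b.1 / a.1 = (a.1 * b.1) / a.1 ^ 2 := by field_simp
      rw [this]
      positivity
    · apply Prod.ext
      · simp [ha1]
      · simp [hv, hb2]
  · obtain ⟨r, hr0, hr⟩ : ∃ r : ℝ, 0 ≤ r ∧ b.2 = r • a.2 := by
      obtain ⟨r, hr0, hr⟩ := hray.exists_nonneg_left hv
      exact ⟨r, hr0, hr.symm⟩
    have hna := nn_pos hv
    have hnb : nn b.2 = r * nn a.2 := by rw [hr, nn_smul, abs_of_nonneg hr0]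
    have hb1 : b.1 = r * a.1 := by
      rw [hnb] at h7
      have : (b.1 - r * a.1) * nn a.2 = 0 := by linarith
      rcases mul_eq_zero.1 this with h0 | h0
      · linarith
      · exact absurd h0 hna.ne'
    have hbr : b = r • a := Prod.ext (by simpa using hb1) (by simpa using hr)
    refine ⟨r, lt_of_le_of_ne hr0 ?_, hbr⟩
    rintro rfl
    exact hb (by rw [hbr, zero_smul])

/-- The underlying type of the counterexample. -/
def X (k : ℕ) : Type := ℝ × EuclideanSpace ℝ (Fin (k + 2))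

/-- Forget the metric. -/
def toV (x : X k) : ℝ × EuclideanSpace ℝ (Fin (k + 2)) := x

/-- Put the metric back. -/
def ofV (x : ℝ × EuclideanSpace ℝ (Fin (k + 2))) : X k := x

/-- The metric of the counterexample. -/
noncomputable instance instX (k : ℕ) : MetricSpace (X k) where
  dist x y := NN (toV x - toV y)
  dist_self x := by
    rw [sub_self]; exact NN_zero
  dist_comm x y := by
    rw [← NN_neg, neg_sub]
  dist_triangle x y z := by
    have := NN_add (toV x - toV y) (toV y - toV z)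
    rwa [sub_add_sub_cancel] at this
  eq_of_dist_eq_zero {x y} h := by
    change NN (toV x - toV y) = 0 at h
    have h1 : toV x = toV y := sub_eq_zero.1 (NN_eq_zero h)
    exact h1

lemma toV_ofV (x : ℝ × EuclideanSpace ℝ (Fin (k + 2))) : toV (ofV x) = x := rfl

lemma dist_eq (x y : X k) : dist x y = NN (toV x - toV y) := rfl

lemma toV_inj {x y : X k} (h : toV x = toV y) : x = y := h

/-! ### Topology -/

lemma norm_le_NN (a : ℝ × EuclideanSpace ℝ (Fin (k + 2))) : ‖a‖ ≤ NN a := by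
  have e := NN_sq a
  have h1 : ‖a.1‖ ≤ NN a := by
    rw [Real.norm_eq_abs]
    refine abs_le_of_sq_le_sq ?_ (NN_nonneg _)
    nlinarith [sq_nonneg (nn a.2)]
  have h2 : ‖a.2‖ ≤ NN a := by
    have h3 : ‖a.2‖ ≤ nn a.2 := by
      unfold nn
      have := abs_nonneg (a.2 0)
      linarith
    refine h3.trans ?_
    refine (abs_le_of_sq_le_sq' ?_ (NN_nonneg _)).2
    nlinarith [sq_nonneg a.1]
  exact max_le h1 h2

lemma NN_le_norm (a : ℝ × EuclideanSpace ℝ (Fin (k + 2))) : NN a ≤ 3 * ‖a‖ := by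
  have e := NN_sq a
  have h1 : ‖a.1‖ ≤ ‖a‖ := norm_fst_le a
  have h2 : ‖a.2‖ ≤ ‖a‖ := norm_snd_le a
  have h0 := norm_nonneg a
  have h3 : nn a.2 ≤ 2 * ‖a‖ := by
    unfold nn
    have h4 : |a.2 0| ≤ ‖a.2‖ := by
      have := EuclideanSpace.norm_eq a.2
      rw [this]
      apply Real.le_sqrt_of_sq_le
      rw [sq_abs]
      calc (a.2 0) ^ 2 = ‖a.2 0‖ ^ 2 := by rw [Real.norm_eq_abs, sq_abs]
        _ ≤ ∑ i, ‖a.2 i‖ ^ 2 :=
          Finset.single_le_sum (f := fun i => ‖a.2 i‖ ^ 2) (fun i _ => by positivity)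
            (Finset.mem_univ 0)
    linarith
  refine (abs_le_of_sq_le_sq' ?_ (by positivity)).2
  rw [e]
  have h5 : a.1 ^ 2 ≤ ‖a‖ ^ 2 := by
    rw [← sq_abs, ← Real.norm_eq_abs]
    exact pow_le_pow_left₀ (norm_nonneg _) h1 2
  have h6 : nn a.2 ^ 2 ≤ (2 * ‖a‖) ^ 2 := pow_le_pow_left₀ (nn_nonneg _) h3 2
  nlinarith

/-- The identity is a homeomorphism. -/
noncomputable def homeo (k : ℕ) : X k ≃ₜ ℝ × EuclideanSpace ℝ (Fin (k + 2)) where
  toFun := toV
  invFun := ofV
  left_inv _ := rfl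
  right_inv _ := rfl
  continuous_toFun := by
    have : LipschitzWith 1 (toV : X k → ℝ × EuclideanSpace ℝ (Fin (k + 2))) := by
      apply LipschitzWith.of_dist_le_mul
      intro x y
      rw [dist_eq_norm, dist_eq, NNReal.coe_one, one_mul]
      exact norm_le_NN _
    exact this.continuous
  continuous_invFun := by
    have : LipschitzWith 3 (ofV : ℝ × EuclideanSpace ℝ (Fin (k + 2)) → X k) := by
      apply LipschitzWith.of_dist_le_mul
      intro x y
      rw [dist_eq_norm, dist_eq]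
      exact NN_le_norm _
    exact this.continuous

/-! ### Geodesics -/

lemma geod (x y z : X k) (hxy : x ≠ y) (hyz : y ≠ z) :
    dist x y + dist y z = dist x z ↔ toV y ∈ openSegment ℝ (toV x) (toV z) := by
  constructor
  · intro h
    rw [dist_eq, dist_eq, dist_eq, ← sub_add_sub_cancel (toV x) (toV y) (toV z)] at h
    obtain ⟨r, hr, e⟩ := NN_add_eq (sub_ne_zero.2 (fun h0 => hxy (toV_inj h0)))
      (sub_ne_zero.2 (fun h0 => hyz (toV_inj h0))) h.symm
    have h1 : (0 : ℝ) < 1 + r := by linarith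
    refine ⟨r / (1 + r), 1 / (1 + r), by positivity, by positivity, by field_simp; ring, ?_⟩
    have e2 : (1 + r) • toV y = r • toV x + toV z := by
      have : toV y = toV z + r • (toV x - toV y) := by rw [← e]; abel
      calc (1 + r) • toV y = toV y + r • toV y := by module
        _ = (toV z + r • (toV x - toV y)) + r • toV y := by rw [← this]
        _ = r • toV x + toV z := by module
    have e3 : toV y = (1 / (1 + r)) • ((1 + r) • toV y) := by
      rw [smul_smul, one_div_mul_cancel h1.ne', one_smul]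
    rw [e3, e2, smul_add, smul_smul]
    congr 2
    field_simp
  · rintro ⟨s, t, hs, ht, hst, e⟩
    have e1 : toV x - toV y = t • (toV x - toV z) := by
      rw [← e]
      have : s = 1 - t := by linarith
      rw [this]
      module
    have e2 : toV y - toV z = s • (toV x - toV z) := by
      rw [← e]
      have : t = 1 - s := by linarith
      rw [this]
      module
    rw [dist_eq, dist_eq, dist_eq, e1, e2, NN_smul, NN_smul, abs_of_pos hs, abs_of_pos ht,
      ← add_mul, add_comm t s, hst, one_mul]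

lemma straight (k : ℕ) : IsStraightProjectiveMetric (k + 3) (X k) := by
  have hfr : Module.finrank ℝ (ℝ × EuclideanSpace ℝ (Fin (k + 2))) =
      Module.finrank ℝ (EuclideanSpace ℝ (Fin (k + 3))) := by
    simp [Module.finrank_prod]
    omega
  obtain ⟨L⟩ : Nonempty ((ℝ × EuclideanSpace ℝ (Fin (k + 2))) ≃L[ℝ]
      EuclideanSpace ℝ (Fin (k + 3))) := ⟨ContinuousLinearEquiv.ofFinrankEq hfr⟩
  refine ⟨⟨((0, 0) : ℝ × EuclideanSpace ℝ (Fin (k + 2)))⟩, fun x => L (toV x), ?_, ?_, ?_⟩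
  · exact ((homeo k).trans L.toHomeomorph).isOpenEmbedding
  · have : range (fun x : X k => L (toV x)) = univ := by
      apply eq_univ_of_forall
      intro y
      exact ⟨ofV (L.symm y), by simp only [toV_ofV, ContinuousLinearEquiv.apply_symm_apply]⟩
    rw [this]
    exact convex_univ
  · intro x y z hxy hyz _
    rw [geod x y z hxy hyz]
    constructor
    · rintro ⟨s, t, hs, ht, hst, e⟩
      exact ⟨s, t, hs, ht, hst, by simp only [← e, map_add, map_smul]⟩
    · rintro ⟨s, t, hs, ht, hst, e⟩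
      refine ⟨s, t, hs, ht, hst, ?_⟩
      apply L.injective
      simp only [← e, map_add, map_smul]

/-! ### Regular polygons -/

lemma exists_dir (v : ℝ × EuclideanSpace ℝ (Fin (k + 2))) :
    ∃ (u : EuclideanSpace ℝ (Fin (k + 2))) (t : ℝ), nn u = 1 ∧ v.2 = t • u := by
  by_cases hv : v.2 = 0
  · have hne : (EuclideanSpace.single (0 : Fin (k + 2)) (1 : ℝ)) ≠ 0 := by
      intro h
      have := congrArg (fun w : EuclideanSpace ℝ (Fin (k + 2)) => w 0) h
      simp at this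
    have hp := nn_pos hne
    refine ⟨(1 / nn (EuclideanSpace.single (0 : Fin (k + 2)) (1 : ℝ))) •
      EuclideanSpace.single (0 : Fin (k + 2)) (1 : ℝ), 0, ?_, ?_⟩
    · rw [nn_smul, abs_of_pos (by positivity), one_div_mul_cancel hp.ne']
    · rw [hv, zero_smul]
  · have hp := nn_pos hv
    refine ⟨(1 / nn v.2) • v.2, nn v.2, ?_, ?_⟩
    · rw [nn_smul, abs_of_pos (by positivity), one_div_mul_cancel hp.ne']
    · rw [smul_smul, mul_one_div_cancel hp.ne', one_smul]

lemma polygon (k : ℕ) : RegularPolygonProperty (X k) := by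
  intro n hn A B hAB
  have : NeZero n := ⟨by omega⟩
  have : Fact (1 < n) := ⟨by omega⟩
  obtain ⟨u, t, hu, ht⟩ := exists_dir (toV B - toV A)
  obtain ⟨s, hs⟩ : ∃ s, s = (toV B - toV A).1 := ⟨_, rfl⟩
  obtain ⟨z0, hz0⟩ : ∃ z : ℂ, z = ⟨s, t⟩ := ⟨_, rfl⟩
  obtain ⟨T, hT⟩ : ∃ T : ℂ → ℝ × EuclideanSpace ℝ (Fin (k + 2)), T = fun z => (z.re, z.im • u) :=
    ⟨_, rfl⟩
  have hTsub : ∀ z w : ℂ, T z - T w = T (z - w) := by
    intro z w
    rw [hT]
    apply Prod.ext
    · simp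
    · simp [sub_smul]
  have hTN : ∀ z : ℂ, NN (T z) = ‖z‖ := by
    intro z
    rw [hT, Complex.norm_def, Complex.normSq_apply]
    unfold NN
    simp only [nn_smul, hu, mul_one, sq_abs]
    congr 1
    ring
  have hTz0 : T z0 = toV B - toV A := by
    rw [hT, hz0]
    apply Prod.ext
    · simp [hs]
    · simp only [← ht]
  have hT0 : T 0 = 0 := by
    rw [hT]
    simp
  have hz0ne : z0 ≠ 0 := by
    intro h0
    rw [h0, hT0] at hTz0
    exact hAB (toV_inj (sub_eq_zero.1 hTz0.symm).symm)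
  have hinj := ZMod.injective_stdAddChar (N := n)
  have hχ1 : (1 : ℂ) - ZMod.stdAddChar (1 : ZMod n) ≠ 0 := by
    intro h0
    have h1 : ZMod.stdAddChar (1 : ZMod n) = ZMod.stdAddChar (0 : ZMod n) := by
      rw [AddChar.map_zero_eq_one]
      exact (sub_eq_zero.1 h0).symm
    exact one_ne_zero (hinj h1)
  have hnorm : ∀ h : ZMod n, ‖(ZMod.stdAddChar h : ℂ)‖ = 1 := fun h => AddChar.norm_apply _ _
  refine ⟨fun j : ZMod n => ofV (toV A +
    T (z0 * ((1 - ZMod.stdAddChar j) / (1 - ZMod.stdAddChar (1 : ZMod n))))), ?_, ?_, ?_, ?_⟩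
  · intro i j hij
    have h1 : T (z0 * ((1 - ZMod.stdAddChar i) / (1 - ZMod.stdAddChar (1 : ZMod n)))) =
        T (z0 * ((1 - ZMod.stdAddChar j) / (1 - ZMod.stdAddChar (1 : ZMod n)))) := by
      have := congrArg toV hij
      simp only [toV_ofV] at this
      exact add_left_cancel this
    have h2 := sub_eq_zero.2 h1
    rw [hTsub] at h2
    have h3 := hTN (z0 * ((1 - ZMod.stdAddChar i) / (1 - ZMod.stdAddChar (1 : ZMod n))) -
      z0 * ((1 - ZMod.stdAddChar j) / (1 - ZMod.stdAddChar (1 : ZMod n))))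
    rw [h2, NN_zero] at h3
    have h4 := norm_eq_zero.1 h3.symm
    have h5 := sub_eq_zero.1 h4
    have h6 := mul_left_cancel₀ hz0ne h5
    have h7 := (div_left_inj' hχ1).1 h6
    have h8 : ZMod.stdAddChar i = ZMod.stdAddChar j := by
      have := sub_right_injective h7
      exact this
    exact hinj h8
  · simp only [AddChar.map_zero_eq_one, sub_self, zero_div, mul_zero, hT0, add_zero]
    rfl
  · simp only [div_self hχ1, mul_one, hTz0, add_sub_cancel]
    rfl
  · intro i j h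
    rw [dist_eq, dist_eq]
    simp only [toV_ofV, add_sub_add_left_eq_sub, hTsub, hTN]
    have e : ∀ p q : ℂ, z0 * ((1 - p) / (1 - ZMod.stdAddChar (1 : ZMod n))) -
        z0 * ((1 - q) / (1 - ZMod.stdAddChar (1 : ZMod n))) =
        z0 * ((q - p) / (1 - ZMod.stdAddChar (1 : ZMod n))) := by
      intro p q
      ring
    rw [e, e, AddChar.map_add_eq_mul, AddChar.map_add_eq_mul, ← sub_mul]
    simp only [norm_mul, norm_div, hnorm, mul_one]

/-! ### Not Euclidean, not hyperbolic -/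

/-- The unit vectors of the second factor. -/
noncomputable def e0 (k : ℕ) : EuclideanSpace ℝ (Fin (k + 2)) := EuclideanSpace.single 0 1

/-- The unit vectors of the second factor. -/
noncomputable def e1 (k : ℕ) : EuclideanSpace ℝ (Fin (k + 2)) := EuclideanSpace.single 1 1

lemma nn_e0 : nn (e0 k) = 2 := by
  unfold nn e0
  simp
  norm_num

lemma nn_e1 : nn (e1 k) = 1 := by
  unfold nn e1
  simp

lemma norm_comb (s : ℝ) (hs : s ^ 2 = 1) : nn (s • e0 k - e1 k) = Real.sqrt 2 + 1 := by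
  have h1 : ‖s • e0 k - e1 k‖ ^ 2 = 2 := by
    rw [@norm_sub_sq_real, norm_smul, inner_smul_left, e0, e1, EuclideanSpace.inner_single_left]
    simp [hs]
    norm_num
  have h2 : ‖s • e0 k - e1 k‖ = Real.sqrt 2 := by
    rw [← h1, Real.sqrt_sq (norm_nonneg _)]
  unfold nn
  rw [h2]
  have h3 : (s • e0 k - e1 k) 0 = s := by
    simp [e0, e1]
  rw [h3]
  have : |s| = 1 := by
    have := sq_abs s
    rw [hs] at this
    have h4 := abs_nonneg s
    nlinarith
  rw [this]

lemma NN_mk (s : ℝ) (v : EuclideanSpace ℝ (Fin (k + 2))) : NN (s, v) = Real.sqrt (s ^ 2 + nn v ^ 2) :=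
  rfl

lemma dist_mk (s t : ℝ) (v w : EuclideanSpace ℝ (Fin (k + 2))) :
    dist (ofV (s, v)) (ofV (t, w)) = Real.sqrt ((s - t) ^ 2 + nn (v - w) ^ 2) := rfl

lemma not_euclidean (k : ℕ) : ¬ IsEuclidean (X k) := by
  rintro ⟨n, ⟨f⟩⟩
  obtain ⟨a, ha⟩ : ∃ a : X k, a = ofV (0, e0 k) := ⟨_, rfl⟩
  obtain ⟨b, hb⟩ : ∃ b : X k, b = ofV (0, (-1 : ℝ) • e0 k) := ⟨_, rfl⟩
  obtain ⟨o, ho⟩ : ∃ o : X k, o = ofV (0, 0) := ⟨_, rfl⟩
  obtain ⟨p, hp⟩ : ∃ p : X k, p = ofV (0, e1 k) := ⟨_, rfl⟩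
  have hab : dist a b = 4 := by
    rw [ha, hb, dist_mk]
    have : e0 k - (-1 : ℝ) • e0 k = (2 : ℝ) • e0 k := by module
    rw [this, nn_smul, nn_e0]
    norm_num
  have hao : dist a o = 2 := by
    rw [ha, ho, dist_mk, sub_zero, sub_zero, nn_e0]
    norm_num
  have hob : dist o b = 2 := by
    rw [hb, ho, dist_mk]
    have : 0 - (-1 : ℝ) • e0 k = (1 : ℝ) • e0 k := by module
    rw [this, nn_smul, nn_e0]
    norm_num
  have hap : dist a p = Real.sqrt 2 + 1 := by
    rw [ha, hp, dist_mk]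
    have : e0 k - e1 k = (1 : ℝ) • e0 k - e1 k := by module
    rw [this, norm_comb 1 (by norm_num)]
    rw [sub_self, zero_pow two_ne_zero, zero_add, Real.sqrt_sq (by positivity)]
  have hbp : dist b p = Real.sqrt 2 + 1 := by
    rw [hb, hp, dist_mk, norm_comb (-1) (by norm_num)]
    rw [sub_self, zero_pow two_ne_zero, zero_add, Real.sqrt_sq (by positivity)]
  have hop : dist o p = 1 := by
    rw [ho, hp, dist_mk]
    have : 0 - e1 k = (-1 : ℝ) • e1 k := by module
    rw [this, nn_smul, nn_e1]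
    norm_num
  have hmid : f o = midpoint ℝ (f a) (f b) := by
    apply eq_midpoint_of_dist_eq_half
    · rw [f.dist_eq, f.dist_eq, hao, hab]; norm_num
    · rw [f.dist_eq, f.dist_eq, hob, hab]; norm_num
  have hpar := parallelogram_law_with_norm ℝ (f a - f o) (f o - f p)
  have e1' : f a - f o + (f o - f p) = f a - f p := by abel
  have e2' : f a - f o - (f o - f p) = f p - f b := by
    have : f o + f o = f a + f b := by
      rw [hmid]; exact midpoint_add_self ℝ (f a) (f b)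
    have h3 : f b = f o + f o - f a := by rw [this]; abel
    rw [h3]; abel
  rw [e1', e2', ← dist_eq_norm, ← dist_eq_norm, ← dist_eq_norm, ← dist_eq_norm,
    f.dist_eq, f.dist_eq, f.dist_eq, f.dist_eq, hap, dist_comm p b, hbp, hao, hop] at hpar
  have h2 : Real.sqrt 2 ^ 2 = 2 := Real.sq_sqrt (by norm_num)
  have h3 : Real.sqrt 2 = 1 := by nlinarith
  rw [h3] at h2
  norm_num at h2

/-- There is no right triangle with sides `3, 4, 5` in a hyperbolic plane. -/
lemma cosh_ne {τ : ℝ} (hτ0 : 0 < τ) :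
    Real.cosh (5 * τ) ≠ Real.cosh (3 * τ) * Real.cosh (4 * τ) := by
  intro s6
  obtain ⟨C, hC⟩ : ∃ C, C = Real.cosh τ := ⟨_, rfl⟩
  have hS : Real.sinh τ ^ 2 = C ^ 2 - 1 := by rw [Real.sinh_sq, hC]
  have c2 : Real.cosh (2 * τ) = 2 * C ^ 2 - 1 := by
    rw [Real.cosh_two_mul, hS, ← hC]; ring
  have c3 : Real.cosh (3 * τ) = 4 * C ^ 3 - 3 * C := by
    rw [Real.cosh_three_mul, ← hC]
  have c4 : Real.cosh (4 * τ) = 2 * (2 * C ^ 2 - 1) ^ 2 - 1 := by
    rw [show (4 : ℝ) * τ = 2 * (2 * τ) by ring, Real.cosh_two_mul, Real.sinh_sq, c2]; ring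
  have c5 : Real.cosh (5 * τ) = 2 * C * Real.cosh (4 * τ) - Real.cosh (3 * τ) := by
    rw [show (5 : ℝ) * τ = 4 * τ + τ by ring, show (3 : ℝ) * τ = 4 * τ - τ by ring,
      Real.cosh_add, Real.cosh_sub, ← hC]
    ring
  rw [c5, c4, c3] at s6
  have hC1 : 1 < C := by rw [hC]; exact Real.one_lt_cosh.2 hτ0.ne'
  have h1 : 8 * C * (C ^ 2 - 1) ^ 2 * (4 * C ^ 2 - 1) = 0 := by linear_combination -s6
  have h3 : 0 < C ^ 2 - 1 := by nlinarith
  have h4 : 0 < 4 * C ^ 2 - 1 := by nlinarith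
  have h5 : 0 < C := by linarith
  have h2 : 0 < 8 * C * (C ^ 2 - 1) ^ 2 * (4 * C ^ 2 - 1) := by positivity
  linarith

lemma not_hyperbolic (k : ℕ) : ¬ IsHyperbolic (X k) := by
  rintro ⟨n, c, f, hc, hf, hd⟩
  obtain ⟨a, ha⟩ : ∃ a : X k, a = ofV (3, 0) := ⟨_, rfl⟩
  obtain ⟨b, hb⟩ : ∃ b : X k, b = ofV (-3, 0) := ⟨_, rfl⟩
  obtain ⟨o, ho⟩ : ∃ o : X k, o = ofV (0, 0) := ⟨_, rfl⟩
  obtain ⟨p, hp⟩ : ∃ p : X k, p = ofV (0, (4 : ℝ) • e1 k) := ⟨_, rfl⟩
  have hab : dist a b = 6 := by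
    rw [ha, hb, dist_mk, sub_zero, nn_zero]
    norm_num
  have hao : dist a o = 3 := by
    rw [ha, ho, dist_mk, sub_zero, sub_zero, nn_zero]
    norm_num
  have hob : dist b o = 3 := by
    rw [hb, ho, dist_mk, sub_zero, sub_zero, nn_zero]
    norm_num
  have hap : dist a p = 5 := by
    rw [ha, hp, dist_mk]
    have : 0 - (4 : ℝ) • e1 k = (-4 : ℝ) • e1 k := by module
    rw [this, nn_smul, nn_e1]
    norm_num
  have hbp : dist b p = 5 := by
    rw [hb, hp, dist_mk]
    have : 0 - (4 : ℝ) • e1 k = (-4 : ℝ) • e1 k := by module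
    rw [this, nn_smul, nn_e1]
    norm_num
  have hop : dist o p = 4 := by
    rw [ho, hp, dist_mk]
    have : 0 - (4 : ℝ) • e1 k = (-4 : ℝ) • e1 k := by module
    rw [this, nn_smul, nn_e1]
    norm_num
  have hlt : ∀ x : X k, 0 < 1 - ‖f x‖ ^ 2 := by
    intro x
    have h1 : f x ∈ Metric.ball (0 : EuclideanSpace ℝ (Fin n)) 1 := hf.mapsTo (mem_univ x)
    rw [mem_ball_zero_iff] at h1
    have h2 := norm_nonneg (f x)
    nlinarith
  obtain ⟨g, hg⟩ : ∃ g : X k → ℝ, g = fun x => 1 / Real.sqrt (1 - ‖f x‖ ^ 2) := ⟨_, rfl⟩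
  obtain ⟨F, hF⟩ : ∃ F : X k → EuclideanSpace ℝ (Fin n), F = fun x => g x • f x := ⟨_, rfl⟩
  have key : ∀ x y : X k, g x * g y - inner ℝ (F x) (F y) = Real.cosh (dist x y / c) := by
    intro x y
    rw [hF]
    simp only [inner_smul_left, inner_smul_right]
    rw [hd x y, hg]
    have h1 := Real.sqrt_pos.2 (hlt x)
    have h2 := Real.sqrt_pos.2 (hlt y)
    simp only [conj_trivial]
    field_simp
  obtain ⟨τ, hτ⟩ : ∃ τ, τ = 1 / c := ⟨_, rfl⟩
  have hτ0 : 0 < τ := by rw [hτ]; positivity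
  have k1 := key a a
  have k2 := key b b
  have k3 := key o o
  have k4 := key a b
  have k5 := key a o
  have k6 := key b o
  have k7 := key a p
  have k8 := key b p
  have k9 := key o p
  rw [dist_self, zero_div, Real.cosh_zero] at k1 k2 k3
  rw [hab] at k4
  rw [hao] at k5
  rw [hob] at k6
  rw [hap] at k7
  rw [hbp] at k8
  rw [hop] at k9
  obtain ⟨C3, hC3⟩ : ∃ C, C = Real.cosh (3 / c) := ⟨_, rfl⟩
  rw [← hC3] at k5 k6
  obtain ⟨w, hw⟩ : ∃ w, w = g a + g b - 2 * C3 * g o := ⟨_, rfl⟩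
  obtain ⟨W, hW⟩ : ∃ W, W = F a + F b - (2 * C3) • F o := ⟨_, rfl⟩
  have hC6 : Real.cosh (6 / c) = 2 * C3 ^ 2 - 1 := by
    rw [hC3, show (6 : ℝ) / c = 2 * (3 / c) by ring, Real.cosh_two_mul, Real.sinh_sq]
    ring
  have s1 : w * g o = inner ℝ W (F o) := by
    rw [hW, inner_sub_left, inner_add_left, inner_smul_left, hw]
    simp only [conj_trivial]
    linear_combination k5 + k6 - 2 * C3 * k3
  have s2 : w ^ 2 = ‖W‖ ^ 2 := by
    rw [← real_inner_self_eq_norm_sq, hW]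
    simp only [inner_sub_left, inner_add_left, inner_smul_left, inner_sub_right, inner_add_right,
      inner_smul_right, conj_trivial]
    rw [real_inner_comm (F a) (F b), real_inner_comm (F a) (F o), real_inner_comm (F b) (F o), hw]
    linear_combination k1 + k2 + 2 * (k4.trans hC6) + 4 * C3 ^ 2 * k3 - 4 * C3 * k5 - 4 * C3 * k6
  have s3 : w ^ 2 * g o ^ 2 ≤ w ^ 2 * (g o ^ 2 - 1) := by
    have h1 : (inner ℝ W (F o)) ^ 2 ≤ (‖W‖ * ‖F o‖) ^ 2 := by
      rw [sq_le_sq]
      rw [abs_of_nonneg (mul_nonneg (norm_nonneg W) (norm_nonneg (F o)))]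
      exact abs_real_inner_le_norm _ _
    have h2 : ‖F o‖ ^ 2 = g o ^ 2 - 1 := by
      rw [← real_inner_self_eq_norm_sq]
      linarith
    calc w ^ 2 * g o ^ 2 = (inner ℝ W (F o)) ^ 2 := by rw [← s1]; ring
      _ ≤ (‖W‖ * ‖F o‖) ^ 2 := h1
      _ = w ^ 2 * (g o ^ 2 - 1) := by rw [mul_pow, h2, s2]
  have s4 : w = 0 := by
    have : w ^ 2 ≤ 0 := by nlinarith
    exact pow_eq_zero_iff (two_ne_zero) |>.1 (le_antisymm this (sq_nonneg _))
  have s5 : W = 0 := by
    rw [s4] at s2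
    have : ‖W‖ = 0 := by
      have := s2.symm
      simpa using this
    exact norm_eq_zero.1 this
  have s6 : 2 * Real.cosh (5 / c) = 2 * C3 * Real.cosh (4 / c) := by
    have h1 : w * g p - inner ℝ W (F p) = 0 := by rw [s4, s5]; simp
    rw [hW, inner_sub_left, inner_add_left, inner_smul_left, hw] at h1
    simp only [conj_trivial] at h1
    linear_combination -k7 - k8 + 2 * C3 * k9 + h1
  have t3 : (3 : ℝ) / c = 3 * τ := by rw [hτ]; ring
  have t4 : (4 : ℝ) / c = 4 * τ := by rw [hτ]; ring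
  have t5 : (5 : ℝ) / c = 5 * τ := by rw [hτ]; ring
  rw [hC3, t3, t4, t5] at s6
  exact cosh_ne hτ0 (by linarith)

/-- For every dimension `m ≥ 3` there is a projective-metric space (of straight type) with the
regular polygon property that is neither Euclidean nor hyperbolic. -/
theorem result : ∀ m : ℕ, 3 ≤ m → ∃ (X : Type) (_ : MetricSpace X),
    IsStraightProjectiveMetric m X ∧ RegularPolygonProperty X ∧
      ¬ IsEuclidean X ∧ ¬ IsHyperbolic X := by
  intro m hm
  obtain ⟨k, rfl⟩ : ∃ k, m = k + 3 := ⟨m - 3, by omega⟩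
  exact ⟨X k, instX k, straight k, polygon k, not_euclidean k, not_hyperbolic k⟩

end Pool.Agent.Results.MP_a3bfba_gt.RegularPolygons2
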